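import Pool.Agent.Run7.h934.FT.Main

set_option autoImplicit false

/-!
# Splay trees and `k` relabellings: the competitive ratio is of order `1 + (log n) / k`

`Tr`, `keys`, `IsBST`, `dep`, `splay`, `costSplay` are those of `Pool.Agent.H581R2.SplayDef`. `Exec T X c`
(an execution of cost `c` of the request sequence `X` with initial tree `T`: a request costs one plus
the depth of its key, a rotation costs one, rotations may take place anywhere) and `optAny K X` (the
least cost of an execution of `X` over all initial trees with the list `K` of keys) are those of
`Pool.Agent.TH49.Spl.Defs`. `rel σ X` is the sequence `X` with the keys renamed by `σ`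
(`Pool.Agent.N724.TW.Stm`).

The proof. (1) The permutations sort random labels; `X` is cut into phases with `4 r` distinct keys.
The labels of the keys of a phase lie in at least `3 r` of the `2 ^ g r` dyadic cells of one level, but
for a proportion of at most `2 ^ (- (g - 6) r)` of the labellings; so, if `g` is at least
`C (1 + (log n) / k)`, among `k` labellings most are good for any set of `4 r` keys, whatever it
is. A good set meets both halves of at least `2 r` nodes of the `g` levels above these cells. This
gives `r` changes in the interleave bound for each phase and each group of `g` levels.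
(2) For every `k` permutations there are `2 ^ m` keys, `m ≥ (log n) / (k + 1) - 1`, at the leaves of a
binary tree such that the images of the two parts are separated at each node, for all `k`
permutations. The leaves, requested again and again from left to right, can be served at constant
cost each, but their working set numbers are `2 ^ m - 1`, and by (1) some relabelling is expensive.
-/

namespace Pool.Agent.Results.MP_c42954_lc.FewRelabellings

open Pool.Agent.H581R2.Splay Pool.Agent.TH49.Spl Pool.Agent.N724.TW

open Classical in
/-- (1) For all `d, k ≥ 1` and `n` there are `k` permutations `σ i` of the keys `0, ..., n - 1` such that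
for every sequence `X` of requests all but at most a fraction `1 / d` of them have the following
property: for all trees `T` with these keys and all permutations `ρ` the cost of splaying `rel ρ X`
from `T` is at most `2900 d (1 + (log₂ n) / k) (OPT + n) + 8 n log₂ n`, `OPT` the optimal cost of
`rel (σ i) X`; and if all keys are requested in `X`, it is at most
`11000 d (1 + (log₂ n) / k) OPT`.
(2) For all permutations `σ 0, ..., σ (k - 1)` of the keys `0, ..., n - 1` and all `M` there is a
sequence `X` of at least `M` requests such that the optimal cost of each `rel (σ i) X` is at most
`9 |X|`, while for some permutation `ρ` the cost of splaying `rel ρ X` is, from every tree, at least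
`((log₂ n) / (k + 1) - 1) |X| / 5288`. -/
theorem result :
    (∀ d n k : ℕ, 1 ≤ d → 1 ≤ k →
      ∃ σ : Fin k → Equiv.Perm (Fin n), ∀ X : List (Fin n),
        d * (Finset.univ.filter fun i => ¬ ∀ T : Tr, keys T = List.range n →
          ∀ ρ : Equiv.Perm (Fin n),
            (costSplay T (rel ρ X) : ℝ) ≤
              2900 * d * (1 + Real.logb 2 n / k) * (optAny (List.range n) (rel (σ i) X) + n) +
                8 * (n * Real.logb 2 n) ∧
            ((∀ x : Fin n, x ∈ X) → (costSplay T (rel ρ X) : ℝ) ≤
              11000 * d * (1 + Real.logb 2 n / k) *
                optAny (List.range n) (rel (σ i) X))).card ≤ k) ∧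
    (∀ n k M : ℕ, 1 ≤ n → ∀ σ : Fin k → Equiv.Perm (Fin n), ∃ X : List (Fin n),
      M ≤ X.length ∧
      (∀ i, optAny (List.range n) (rel (σ i) X) ≤ 9 * X.length) ∧
      ∃ ρ : Equiv.Perm (Fin n), ∀ T : Tr, keys T = List.range n →
        (Real.logb 2 n / (k + 1) - 1) * X.length ≤ 5288 * costSplay T (rel ρ X)) :=
  ⟨fun d n k hd hk => Pool.Agent.Run7.h934.FT.upper2 d n k hd hk,
    fun n k M hn σ => Pool.Agent.Run7.h934.FR.lower n k M hn σ⟩

end Pool.Agent.Results.MP_c42954_lc.FewRelabellings
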