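import Pool.Agent.Run7.h471.Spl.Low

set_option autoImplicit false

/-!
# Splay trees are O(log k)-competitive against executions with blocks of k keys

`Tr`, `keys`, `IsBST`, `dep`, `toRoot`, `splay`, `costSplay` are those of `Pool.Agent.H581R2.SplayDef`:
search trees, the depth of a key, moving a key to the root by rotations at it, splaying, and the
cost of splaying (one plus the depth for each request). `anc y T` (`Pool.Agent.Run7.h471.Spl.Anc`) is
the list of the keys strictly above `y` on the search path. `BRot`, `blk`, `Phase`, `Exec` are in
`Pool.Agent.Run7.h471.Spl.Reb` and `Pool.Agent.Run7.h471.Spl.Run`:

* The keys are divided into blocks, given by the label `G y` of the key `y`. `Exec k G T X c`: starting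
  with the tree `T` and the labels `G` the requests `X` are served in phases (of any lengths), at cost
  `c`. A request of `x` costs `blk G x T`, the number of different BLOCKS which occur on the search path
  from the root to `x` (so at most one plus the depth of `x`). Then the tree is left alone, or `x` is
  moved to the root by rotations at `x` and joins the current block. At any time edges between two
  keys of the same block may be rotated, FREE OF CHARGE and without any bound for the number of
  these rotations. Every phase begins a new block, which at the end of the phase has at most `k` keys;
  after this no key joins it.

(1) Let every block occur at most `⌊log₂ k⌋ + 1` times on each search path of the initial tree (for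
instance let the blocks be single keys). Then splaying costs at most `24 (⌊log₂ k⌋ + 1)` times as much
as every such execution, without an additive term. So splaying is dynamically optimal, up to a constant
factor, among the executions which pay only for the blocks they meet and rearrange the inside of the
blocks for nothing, if the blocks are of bounded size; the number of keys, the lengths and the
number of the phases play no role.

(2) The factor is right up to the constant, even if at the beginning the blocks are single keys: for
no `k ≥ 1` is the cost of splaying bounded by `a` times the cost of these executions plus a function of
the number of keys if `a < log₂ (k + 1)`.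

Proof of (1). Beside the splay tree `S` and the tree `O` of the execution keep a third tree `R`, with
the same keys moved to the root as in `O`, but without the free rotations. The set `Q` of the keys
of the current block is a top part of `R`. The level `f y` of a key is the number of its ancestors in
`R` outside of `Q`. The potential is a multiple of the sum over the nodes of `S` of the level of the
key minus the least level in the subtree, plus the logarithm of one plus the number of the keys of
`Q` in the subtree. The levels have few ties: if two disjoint subtrees both contain a key of the
least level of their union, then a key of `Q` lies between, and the logarithms take over; so a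
splaying costs `O(f x + 1 + log (1 + |Q|))`. Moving a key to the root in `R` is harmless. At the end of a
phase the top part `Q` of `R` is balanced, with height `O(1 + log k)`, and joins the rest; the potential
increases by `O(1 + log k)` for each node of `S` whose subtree meets `Q`, and there are at most twice as
many of them as keys requested in this phase (result WorkingSetDepth). Finally, every block occurs at
most `⌊log₂ k⌋ + 1` times above a key in `R`, and only if it occurs on its search path in `O`, and in the
right direction from the key, which makes this stable; hence `f x ≤ (⌊log₂ k⌋ + 1) blk G x O`.
(2) Request the deepest key of the splay tree; the execution consists of one phase and costs one for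
each request after the first ones.
-/

namespace Pool.Agent.Results.MP_c42954_lc.FreeRearrangement

open Pool.Agent.H581R2.Splay Run7.h471.Spl

theorem result :
    -- (1) the comparison
    (∀ (k : ℕ) (G : ℕ → ℕ) (T : Tr) (X : List ℕ) (c : ℕ), IsBST T → (∀ x ∈ X, x ∈ keys T) →
      (∀ y ∈ keys T, ∀ g, (anc y T).countP (fun a => decide (G a = g)) ≤ Nat.log 2 k + 1) →
      Exec k G T X c → costSplay T X ≤ 24 * (Nat.log 2 k + 1) * c) ∧
    -- (2) the factor is right up to the constant, even if at the beginning the blocks are single keys
    (∀ (k : ℕ) (a : ℝ) (f : ℕ → ℝ), 1 ≤ k →
      (∀ (T : Tr) (X : List ℕ) (c : ℕ), IsBST T → (∀ x ∈ X, x ∈ keys T) → Exec k id T X c →
        (costSplay T X : ℝ) ≤ a * (c : ℝ) + f (keys T).length) →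
      Real.logb 2 ((k : ℝ) + 1) ≤ a) :=
  ⟨fun _ _ _ _ _ hb hX hG he => Run7.h471.Spl.main hb hX hG he,
    fun _ _ _ hk h => Run7.h471.Spl.low hk h⟩

end Pool.Agent.Results.MP_c42954_lc.FreeRearrangement
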