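import Pool.Agent.Run7.h150.Pol.Weyl

set_option autoImplicit false

/-!
# Splay trees on polynomial request sequences modulo a prime, and a criterion by pair sums

`Tr`, `keys`, `splay`, `costSplay` are those of `Pool.Agent.H581R2.SplayDef`; `optAny K X`
(`Pool.Agent.TH49.Spl.Defs`) is the least cost of an execution for the requests `X` (a request costs one
plus the depth of the key, a rotation anywhere costs one) over all initial trees with the keys `K`.

`reqs X N` (`Pool.Agent.Run7.h150.Pol.Crit`) is the list of the requests `X 0, X 1, ..., X (N - 1)` for a
map `X` from the residues modulo `n` to the residues modulo `n`, which are identified with the keys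
`0, ..., n - 1`.

(1) Let `p` be a prime and `f` a polynomial modulo `p` of degree `d`, `2 ≤ d < p`. For every `N ≥ p` the
optimum for the requests `f 0, f 1, ..., f (N - 1)` is at least `N log₂ p / (8199 · 2^d)`, and splaying
costs at most `114800 · 2^d` times the optimum, for every initial tree. So splay trees are dynamically
optimal on all these sequences, with a constant which depends only on the degree (`459200` for quadratic
polynomials). (For `d = 1` the optimum is between `N` and `O (N log n)`, depending on the continued
fraction, see `ProgressionsModulo`.)

(2) More generally let `X` be any map from the residues modulo `n` to themselves, such that for all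
`h ≠ 0` and all `a`, `b`, not both zero, the sum over `i` of `e ((a X (i) + b X (i + h)) / n)` has absolute
value at most `2 n^(1 - η)`. Then for `N ≥ n` the optimum is at least `η N log₂ n / 16398`, and splaying costs
at most `229600 / η` times the optimum, for every initial tree. So one period in which the pairs of
requests at each distance are equidistributed, with a power saving, is sufficient for the dynamic
optimality of splaying; no randomness is used.

Proof. Consider a node with an interval of `4 κ` keys in the dyadic scheme of Wilber's first bound. With a
weight function which is a convolution of two intervals of `κ` keys, whose Fourier coefficients have a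
small sum, the second moment of the number of the visits of one half in a window of `32 n / κ` requests
is bounded by the pair sums. So all but an eighth of the windows contain a visit, if `κ² ≥ 64 n B` for the
bound `B` of the pair sums. Therefore the node sees at least `κ / 256` changes from the left to the right
half in each period. This gives a positive proportion of the requests for each of `η (log₂ n) / 2 - 7`
levels. For a polynomial `f` the polynomial `a f (x) + b f (x + h)` is not constant and has degree at
most `d`, and the sums are estimated by Weyl's differencing.
-/

namespace Pool.Agent.Results.MP_c42954_lc.PolynomialRequests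

open Pool.Agent.H581R2.Splay Pool.Agent.TH49.Spl Pool.Agent.Run7.h150.Pol Polynomial

theorem result :
    -- (1) polynomials
    (∀ (p : ℕ) [Fact p.Prime] (f : (ZMod p)[X]) (N : ℕ) (T : Tr), 2 ≤ f.natDegree →
      f.natDegree < p → p ≤ N → keys T = List.range p →
      (N : ℝ) * Real.logb 2 p ≤ 8199 * 2 ^ f.natDegree *
        optAny (List.range p) (reqs (fun x : ZMod p => f.eval x) N) ∧
      (costSplay T (reqs (fun x : ZMod p => f.eval x) N) : ℝ) ≤ 114800 * 2 ^ f.natDegree *
        optAny (List.range p) (reqs (fun x : ZMod p => f.eval x) N)) ∧
    -- (2) the criterion
    (∀ (n : ℕ) [NeZero n] (X : ZMod n → ZMod n) (η : ℝ) (N : ℕ) (T : Tr), 0 < η → η ≤ 1 →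
      (∀ h : ZMod n, h ≠ 0 → ∀ a b : ZMod n, (a ≠ 0 ∨ b ≠ 0) →
        ‖∑ i : ZMod n, (ZMod.stdAddChar (a * X i + b * X (i + h)) : ℂ)‖ ≤
          2 * (n : ℝ) ^ (1 - η)) →
      n ≤ N → keys T = List.range n →
      (N : ℝ) * Real.logb 2 n * η ≤ 16398 * optAny (List.range n) (reqs X N) ∧
      (costSplay T (reqs X N) : ℝ) ≤ 229600 / η * optAny (List.range n) (reqs X N)) :=
  ⟨fun _ _ _ _ _ hd hdp hN hT => ⟨poly_opt hd hdp hN hT, poly_main hd hdp hN hT⟩,
    fun _ _ _ _ _ _ h0 h1 hX hN hT => ⟨opt_log h0 h1 hX hN hT, crit h0 h1 hX hN hT⟩⟩

end Pool.Agent.Results.MP_c42954_lc.PolynomialRequests
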