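import Pool.Agent.Run7.h150.Rot.Ave

set_option autoImplicit false

/-!
# Splay trees on arithmetic progressions modulo n

`Tr`, `keys`, `splay`, `costSplay` are those of `Pool.Agent.H581R2.SplayDef`; `optAny K X`
(`Pool.Agent.TH49.Spl.Defs`) is the least cost of an execution for the requests `X` (a request costs one
plus the depth of the key, a rotation anywhere costs one) over all initial trees with the keys `K`.

`prog n a b N` (`Pool.Agent.Run7.h150.Rot.Level`) is the request sequence `b, b + a, b + 2a, ...` of
length `N` modulo `n`, with keys in `0, ..., n - 1`. `quots n a` (`Pool.Agent.Run7.h150.Rot.Euclid`) is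
the list of the quotients in the algorithm of Euclid for `n` and `a`, that is, of the partial quotients
of the continued fraction of `n / a`.

Let `a` be coprime to `n`, `1 ≤ a < n`, and `N ≥ n` (for `N = n` the request sequence is a permutation of
the keys).

(1) The optimum is at least `N / 70` times the number of steps of the algorithm of Euclid for `n`, `a`.

(2) Splaying costs at most `8 + 980 μ` times the optimum, where `μ` is the mean of the numbers
`log₂ (q + 1)` over the partial quotients `q`. So splaying is dynamically optimal on these sequences
whenever the geometric mean of the numbers `q + 1` is bounded, in particular for bounded partial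
quotients.

(3) For consecutive Fibonacci numbers `n = F_{k+1}`, `a = F_k` the factor is `1576`.

(4) Let `n = p` be a prime. For all `0 < δ ≤ 1`, for all `a` in `1, ..., p - 1` with at most `δ p`
exceptions splaying costs at most `2752 + 910 log₂ (1 / δ)` times the optimum, for all `b`, all `N ≥ p`
and all initial trees.

(5) The average over all the `a` in `1, ..., p - 1` of the ratio of the cost of splaying and the optimum
is bounded (the sum of the ratios is at most `4572 p`), for all choices of `b`, `N` and the initial tree
depending on `a`.

Proof. Let `s a ≡ ± t` modulo `n`, where no `u < s` has `u a` closer to `0` than `t`. Two visits of an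
interval of `t` keys are at least `s` requests apart, and `s` requests after such a visit the key
requested is shifted by exactly `t`. So if `t ≤ k` then in every dyadic interval of length `2 k` there are
at least `t - 1` changes from the left half to the right half in each period. If `t > k / 2` this gives a
positive proportion of `N` for the level of the interleave bound with intervals of length `2 k`. The
remainders in the algorithm of Euclid give such `t` for half as many levels as there are steps. For (4)
the levels are treated by Dirichlet's theorem, a union bound over the short multiples `u a` and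
Markov's inequality over the levels.
-/

namespace Pool.Agent.Results.MP_c42954_lc.ProgressionsModulo

open Pool.Agent.H581R2.Splay Pool.Agent.TH49.Spl Pool.Agent.Run7.h150.Rot

theorem result :
    -- (1), (2) all differences coprime to the modulus
    (∀ (n a b N : ℕ) (T : Tr), 1 ≤ a → a < n → Nat.Coprime a n → n ≤ N →
      keys T = List.range n →
      (N : ℝ) * (quots n a).length ≤ 70 * optAny (List.range n) (prog n a b N) ∧
      (costSplay T (prog n a b N) : ℝ) ≤
        (8 + 980 * (((quots n a).map fun q : ℕ => Real.logb 2 ((q : ℝ) + 1)).sum /
          (quots n a).length)) * optAny (List.range n) (prog n a b N)) ∧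
    -- (3) consecutive Fibonacci numbers
    (∀ (k b N : ℕ) (T : Tr), 2 ≤ k → Nat.fib (k + 1) ≤ N →
      keys T = List.range (Nat.fib (k + 1)) →
      (costSplay T (prog (Nat.fib (k + 1)) (Nat.fib k) b N) : ℝ) ≤
        1576 * optAny (List.range (Nat.fib (k + 1))) (prog (Nat.fib (k + 1)) (Nat.fib k) b N)) ∧
    -- (4) almost all differences modulo a prime
    (∀ (p : ℕ) (δ : ℝ), p.Prime → 0 < δ → δ ≤ 1 →
      ∃ B ⊆ Finset.Icc 1 (p - 1), (B.card : ℝ) ≤ δ * p ∧
        ∀ a ∈ Finset.Icc 1 (p - 1), a ∉ B → ∀ (b N : ℕ) (T : Tr), p ≤ N →
          keys T = List.range p →
          (costSplay T (prog p a b N) : ℝ) ≤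
            (2752 + 910 * Real.logb 2 (1 / δ)) * optAny (List.range p) (prog p a b N)) ∧
    -- (5) the average over the differences modulo a prime
    (∀ (p : ℕ) (b N : ℕ → ℕ) (T : ℕ → Tr), p.Prime → (∀ a, p ≤ N a) →
      (∀ a, keys (T a) = List.range p) →
      ∑ a ∈ Finset.Icc 1 (p - 1), (costSplay (T a) (prog p a (b a) (N a)) : ℝ) /
        optAny (List.range p) (prog p a (b a) (N a)) ≤ 4572 * p) := by
  refine ⟨fun n a b N T h1 h2 h3 h4 h5 => ⟨opt_ge_quots h2 h3 h4 h5, main1 h1 h2 h3 h4 h5⟩,
    fun k b N T h1 h2 h3 => main5 h1 h2 h3, fun p δ hp h0 h1 => main3 hp h0 h1,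
    fun p b N T hp hN hT => main4 hp b N T hN hT⟩

end Pool.Agent.Results.MP_c42954_lc.ProgressionsModulo
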